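import Pool.Agent.H684R3.USS.Stmts

set_option autoImplicit false

/-! Task L of the project H684-USS: the squarefree part of a monic integer polynomial.
(helper77) -/

namespace Pool.Agent.H77R3.USSL

open Polynomial UniqueFactorizationMonoid
open scoped Classical

lemma clear (a : ℚ[X]) : ∃ (N : ℤ) (s : ℤ[X]), N ≠ 0 ∧
    s.map (algebraMap ℤ ℚ) = C (N : ℚ) * a := by
  obtain ⟨b, hb0, hb⟩ := IsLocalization.integerNormalization_spec (nonZeroDivisors ℤ) a
  refine ⟨b, IsLocalization.integerNormalization (nonZeroDivisors ℤ) a,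
    nonZeroDivisors.ne_zero hb0, ?_⟩
  rw [hb]
  ext n
  simp

theorem taskL : Pool.Agent.H684R3.USS.TaskL := by
  intro f hf hd hc
  have hinj : Function.Injective (algebraMap ℤ ℚ) := (algebraMap ℤ ℚ).injective_int
  set F : ℚ[X] := f.map (algebraMap ℤ ℚ) with hF
  have hF0 : F ≠ 0 := (hf.map (algebraMap ℤ ℚ)).ne_zero
  have hFd : F.natDegree = f.natDegree := hf.natDegree_map _
  have hr0 : radical F ≠ 0 := radical_ne_zero
  have hrd : radical F ∣ F := radical_dvd_self
  obtain ⟨g, hg⟩ := IsIntegrallyClosed.eq_map_mul_C_of_dvd ℚ hf hrd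
  obtain ⟨m, hm⟩ := exists_dvd_radical_self_pow (a := F) hF0
  set c : ℚ := leadingCoeff (radical F) with hcdef
  have hc0 : c ≠ 0 := leadingCoeff_ne_zero.mpr hr0
  have hgm0 : g.map (algebraMap ℤ ℚ) = radical F * C c⁻¹ := by
    rw [← hg, mul_assoc, ← C_mul, mul_inv_cancel₀ hc0, C_1, mul_one]
  have hgM : (g.map (algebraMap ℤ ℚ)).Monic := by
    rw [hgm0]
    exact monic_mul_leadingCoeff_inv hr0
  have hgm : g.Monic := by
    have h1 : (g.map (algebraMap ℤ ℚ)).leadingCoeff = 1 := hgM
    rw [leadingCoeff_map_of_injective hinj] at h1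
    exact hinj (by rw [h1, map_one])
  set G : ℚ[X] := g.map (algebraMap ℤ ℚ) with hG
  have hGr : Associated G (radical F) := by
    rw [hgm0]
    refine ⟨(isUnit_C.mpr hc0.isUnit).unit, ?_⟩
    rw [IsUnit.unit_spec, mul_assoc, ← C_mul, inv_mul_cancel₀ hc0, C_1, mul_one]
  have hGsq : Squarefree G := by
    have h2 : Squarefree (radical F) := squarefree_radical
    exact h2.squarefree_of_dvd hGr.dvd
  have hGsep : G.Separable := PerfectField.separable_iff_squarefree.mpr hGsq
  have hdeg : 1 ≤ g.natDegree := by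
    by_contra hcon
    have h0 : g.natDegree = 0 := by omega
    have h1 : g = 1 := hgm.natDegree_eq_zero.mp h0
    have h2 : IsUnit (radical F) := by
      have h3 : IsUnit G := by rw [hG, h1]; simp
      exact hGr.isUnit h3
    have h4 : IsUnit F := isUnit_of_dvd_unit hm (h2.pow m)
    have h5 := natDegree_eq_zero_of_isUnit h4
    omega
  have hX : IsCoprime G X := by
    have hXi : Irreducible (X : ℚ[X]) := irreducible_X
    rw [isCoprime_comm, hXi.coprime_iff_not_dvd]
    intro hdv
    have h1 : (X : ℚ[X]) ∣ F := (hdv.trans hGr.dvd).trans hrd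
    rw [X_dvd_iff, hF, coeff_map] at h1
    exact hc (hinj (by rw [h1, map_zero]))
  have hcop : IsCoprime G (X * derivative G) := hX.mul_right hGsep
  obtain ⟨a, b, hab⟩ := hcop
  obtain ⟨N1, s1, hN1, hs1⟩ := clear a
  obtain ⟨N2, t1, hN2, ht1⟩ := clear b
  refine ⟨g, C N2 * s1, C N1 * t1, N1 * N2, m, hgm, hdeg, ?_, mul_ne_zero hN1 hN2, ?_⟩
  · have hder : map (algebraMap ℤ ℚ) (derivative g) = derivative G := by
      rw [hG, derivative_map]
    apply map_injective (algebraMap ℤ ℚ) hinj
    simp only [Polynomial.map_add, Polynomial.map_mul, map_C, map_X, hs1, ht1, hder]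
    rw [show map (algebraMap ℤ ℚ) g = G from rfl]
    simp only [algebraMap_int_eq, eq_intCast, Int.cast_mul, C_mul]
    linear_combination (C (N1 : ℚ) * C (N2 : ℚ)) * hab
  · rw [← map_dvd_map (algebraMap ℤ ℚ) hinj hf, Polynomial.map_pow]
    exact hm.trans (pow_dvd_pow_of_dvd hGr.symm.dvd m)

end Pool.Agent.H77R3.USSL
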